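import Pool.Agent.H54.WB.TargetsA

/-!
# Numbers with given bits
-/

set_option autoImplicit false

namespace Pool.Agent.H67.WB

open Pool.Agent.H54.WB

theorem bv_pos {n : ℕ} {A : ℕ → Prop} (h : A n) : bv (n + 1) A = bv n A + 2 ^ n := by
  classical
  unfold bv
  rw [Finset.sum_range_succ, if_pos h]

theorem bv_neg {n : ℕ} {A : ℕ → Prop} (h : ¬ A n) : bv (n + 1) A = bv n A := by
  classical
  unfold bv
  rw [Finset.sum_range_succ, if_neg h, add_zero]

theorem bv_zero (A : ℕ → Prop) : bv 0 A = 0 := by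
  unfold bv
  simp

theorem bv_lt : ∀ (n : ℕ) (A : ℕ → Prop), bv n A < 2 ^ n := by
  intro n
  induction n with
  | zero => intro A; rw [bv_zero]; simp
  | succ n ih =>
    intro A
    have h := ih A
    by_cases hA : A n
    · rw [bv_pos hA, pow_succ]; omega
    · rw [bv_neg hA, pow_succ]; omega

theorem bv_eq : ∀ (n : ℕ) (A B : ℕ → Prop), (∀ i < n, (A i ↔ B i)) ↔ bv n A = bv n B := by
  intro n
  induction n with
  | zero => intro A B; rw [bv_zero, bv_zero]; simp
  | succ n ih =>
    intro A B
    have hA := bv_lt n A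
    have hB := bv_lt n B
    have hs : (∀ i < n + 1, (A i ↔ B i)) ↔ (A n ↔ B n) ∧ ∀ i < n, (A i ↔ B i) := by
      constructor
      · exact fun h => ⟨h n (Nat.lt_succ_self n), fun i hi => h i (by omega)⟩
      · rintro ⟨h1, h2⟩ i hi
        rcases Nat.lt_succ_iff_lt_or_eq.1 hi with h | h
        · exact h2 i h
        · rw [h]; exact h1
    rw [hs, ih A B]
    by_cases h1 : A n <;> by_cases h2 : B n
    · rw [bv_pos h1, bv_pos h2]; simp [h1, h2]
    · rw [bv_pos h1, bv_neg h2]; simp only [h1, h2, iff_false, not_true, false_and, false_iff]; omega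
    · rw [bv_neg h1, bv_pos h2]; simp only [h1, h2, iff_true, false_and, false_iff]; omega
    · rw [bv_neg h1, bv_neg h2]; simp [h1, h2]

theorem bv_none : ∀ (n : ℕ) (A : ℕ → Prop), (∀ i < n, ¬ A i) ↔ bv n A = 0 := by
  intro n
  induction n with
  | zero => intro A; rw [bv_zero]; simp
  | succ n ih =>
    intro A
    have h2 : 0 < 2 ^ n := by positivity
    by_cases hA : A n
    · rw [bv_pos hA]
      constructor
      · exact fun h => absurd hA (h n (Nat.lt_succ_self n))
      · intro h; omega
    · rw [bv_neg hA, ← ih A]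
      constructor
      · exact fun h i hi => h i (by omega)
      · intro h i hi
        rcases Nat.lt_succ_iff_lt_or_eq.1 hi with h' | h'
        · exact h i h'
        · rw [h']; exact hA

theorem bv_all : ∀ (n : ℕ) (A : ℕ → Prop), (∀ i < n, A i) ↔ bv n A + 1 = 2 ^ n := by
  intro n
  induction n with
  | zero => intro A; rw [bv_zero]; simp
  | succ n ih =>
    intro A
    have h2 : 0 < 2 ^ n := by positivity
    have hl := bv_lt n A
    by_cases hA : A n
    · rw [bv_pos hA, pow_succ]
      constructor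
      · intro h
        have := (ih A).1 fun i hi => h i (by omega)
        omega
      · intro h i hi
        have h' := (ih A).2 (by omega)
        rcases Nat.lt_succ_iff_lt_or_eq.1 hi with h'' | h''
        · exact h' i h''
        · rw [h'']; exact hA
    · rw [bv_neg hA, pow_succ]
      constructor
      · exact fun h => absurd (h n (Nat.lt_succ_self n)) hA
      · intro h; omega

theorem bv_lt_iff : ∀ (n : ℕ) (A B : ℕ → Prop),
    (∃ i < n, ¬ A i ∧ B i ∧ ∀ j < n, i < j → (A j ↔ B j)) ↔ bv n A < bv n B := by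
  intro n
  induction n with
  | zero => intro A B; rw [bv_zero, bv_zero]; simp
  | succ n ih =>
    intro A B
    have hA := bv_lt n A
    have hB := bv_lt n B
    have hsame : (A n ↔ B n) → ((∃ i < n + 1, ¬ A i ∧ B i ∧ ∀ j < n + 1, i < j → (A j ↔ B j)) ↔
        ∃ i < n, ¬ A i ∧ B i ∧ ∀ j < n, i < j → (A j ↔ B j)) := by
      intro hn
      constructor
      · rintro ⟨i, hi, h1, h2, h3⟩
        rcases Nat.lt_succ_iff_lt_or_eq.1 hi with h | h
        · exact ⟨i, h, h1, h2, fun j hj => h3 j (by omega)⟩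
        · subst h; exact absurd (hn.2 h2) h1
      · rintro ⟨i, hi, h1, h2, h3⟩
        refine ⟨i, by omega, h1, h2, fun j hj hij => ?_⟩
        rcases Nat.lt_succ_iff_lt_or_eq.1 hj with h | h
        · exact h3 j h hij
        · rw [h]; exact hn
    by_cases h1 : A n <;> by_cases h2 : B n
    · rw [bv_pos h1, bv_pos h2, hsame (by simp [h1, h2]), ih A B]; omega
    · rw [bv_pos h1, bv_neg h2]
      constructor
      · rintro ⟨i, hi, h3, h4, h5⟩
        rcases Nat.lt_succ_iff_lt_or_eq.1 hi with h | h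
        · exact absurd ((h5 n (Nat.lt_succ_self n) h).1 h1) h2
        · subst h; exact absurd h1 h3
      · intro h; omega
    · rw [bv_neg h1, bv_pos h2]
      refine ⟨fun _ => by omega, fun _ => ⟨n, Nat.lt_succ_self n, h1, h2, fun j hj hij => by omega⟩⟩
    · rw [bv_neg h1, bv_neg h2, hsame (by simp [h1, h2]), ih A B]

theorem bv_suc : ∀ (n : ℕ) (A B : ℕ → Prop),
    (∃ i < n, ¬ A i ∧ B i ∧ (∀ j < n, i < j → (A j ↔ B j)) ∧ ∀ j < i, A j ∧ ¬ B j) ↔
      bv n B = bv n A + 1 := by
  intro n
  induction n with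
  | zero => intro A B; rw [bv_zero, bv_zero]; simp
  | succ n ih =>
    intro A B
    have hA := bv_lt n A
    have hB := bv_lt n B
    have hsame : (A n ↔ B n) →
        ((∃ i < n + 1, ¬ A i ∧ B i ∧ (∀ j < n + 1, i < j → (A j ↔ B j)) ∧ ∀ j < i, A j ∧ ¬ B j) ↔
        ∃ i < n, ¬ A i ∧ B i ∧ (∀ j < n, i < j → (A j ↔ B j)) ∧ ∀ j < i, A j ∧ ¬ B j) := by
      intro hn
      constructor
      · rintro ⟨i, hi, h1, h2, h3, h4⟩
        rcases Nat.lt_succ_iff_lt_or_eq.1 hi with h | h
        · exact ⟨i, h, h1, h2, fun j hj => h3 j (by omega), h4⟩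
        · subst h; exact absurd (hn.2 h2) h1
      · rintro ⟨i, hi, h1, h2, h3, h4⟩
        refine ⟨i, by omega, h1, h2, fun j hj hij => ?_, h4⟩
        rcases Nat.lt_succ_iff_lt_or_eq.1 hj with h | h
        · exact h3 j h hij
        · rw [h]; exact hn
    by_cases h1 : A n <;> by_cases h2 : B n
    · rw [bv_pos h1, bv_pos h2, hsame (by simp [h1, h2]), ih A B]; omega
    · rw [bv_pos h1, bv_neg h2]
      constructor
      · rintro ⟨i, hi, h3, h4, h5, h6⟩
        rcases Nat.lt_succ_iff_lt_or_eq.1 hi with h | h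
        · exact absurd ((h5 n (Nat.lt_succ_self n) h).1 h1) h2
        · subst h; exact absurd h1 h3
      · intro h; omega
    · rw [bv_neg h1, bv_pos h2]
      constructor
      · rintro ⟨i, hi, h3, h4, h5, h6⟩
        rcases Nat.lt_succ_iff_lt_or_eq.1 hi with h | h
        · exact absurd ((h5 n (Nat.lt_succ_self n) h).2 h2) h1
        · subst h
          have e1 := (bv_all i A).1 fun j hj => (h6 j hj).1
          have e2 := (bv_none i B).1 fun j hj => (h6 j hj).2
          omega
      · intro h
        have e1 := (bv_all n A).2 (by omega)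
        have e2 := (bv_none n B).2 (by omega)
        exact ⟨n, Nat.lt_succ_self n, h1, h2, fun j hj hij => by omega,
          fun j hj => ⟨e1 j hj, e2 j hj⟩⟩
    · rw [bv_neg h1, bv_neg h2, hsame (by simp [h1, h2]), ih A B]

theorem bv_hi : ∀ (n : ℕ) (A : ℕ → Prop) (k : ℕ), k ≤ n →
    ((∃ i < n, A i ∧ k ≤ i) ↔ 2 ^ k ≤ bv n A) := by
  intro n
  induction n with
  | zero => intro A k hk; rw [bv_zero]; simp
  | succ n ih =>
    intro A k hk
    have hl := bv_lt (n + 1) A
    rcases Nat.lt_or_ge n k with h | h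
    · have hk' : k = n + 1 := by omega
      subst hk'
      constructor
      · rintro ⟨i, hi, _, h'⟩; omega
      · intro h'; omega
    · by_cases hA : A n
      · rw [bv_pos hA]
        have := Nat.pow_le_pow_right (n := 2) (by norm_num) h
        exact ⟨fun _ => by omega, fun _ => ⟨n, Nat.lt_succ_self n, hA, h⟩⟩
      · rw [bv_neg hA, ← ih A k h]
        constructor
        · rintro ⟨i, hi, h1, h2⟩
          rcases Nat.lt_succ_iff_lt_or_eq.1 hi with h' | h'
          · exact ⟨i, h', h1, h2⟩
          · subst h'; exact absurd h1 hA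
        · rintro ⟨i, hi, h1, h2⟩
          exact ⟨i, by omega, h1, h2⟩

theorem bv_testBit (a : ℕ) : ∀ n : ℕ, bv n (fun i => a.testBit i = true) = a % 2 ^ n := by
  intro n
  induction n with
  | zero => rw [bv_zero]; simp [Nat.mod_one]
  | succ n ih =>
    rw [Nat.mod_pow_succ]
    have ht : (a.testBit n = true) ↔ a / 2 ^ n % 2 = 1 := by
      rw [Nat.testBit_eq_decide_div_mod_eq]; simp
    by_cases h : a.testBit n = true
    · rw [bv_pos h, ih, ht.1 h, mul_one]
    · rw [bv_neg h, ih]
      have : a / 2 ^ n % 2 = 0 := by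
        have := mt ht.2 h
        omega
      rw [this, mul_zero, add_zero]

theorem pf_BIT : T_BIT := fun n =>
  ⟨bv_lt n, bv_eq n, bv_lt_iff n, bv_suc n, bv_none n, bv_all n, bv_hi n, fun a ha => by
    rw [bv_testBit, Nat.mod_eq_of_lt ha]⟩

end Pool.Agent.H67.WB
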