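import Pool.Agent.H54.WB.TargetsA

/-!
# The hard side for a coding
-/

set_option autoImplicit false

namespace Pool.Agent.H67.WB

open Pool.Agent.H54.WB Pool.Agent.H76.ADV Pool.Agent.H8.MC Pool.Agent.H69.VR Pool.Agent.H69.Sp

theorem gr_npow (r : ℕ) : GR (fun m => m ^ r) := by
  induction r with
  | zero => simpa using GR.num 1
  | succ r ih =>
    have e : (fun m : ℕ => m ^ (r + 1)) = fun m => m ^ r * m := by
      funext m
      exact pow_succ m r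
    rw [e]
    exact ih.mul GR.id

theorem pf_HAS (hSQ : Pool.Agent.H8.PL.Z_SQ) (hTRN : T_TRN) (hNEC : T_NEC) : T_HAS := by
  intro g Cl hcod hgr hmono
  obtain ⟨S, hS, hSN⟩ := hNEC
  obtain ⟨r, Q, U, Hh, Vv, hr, hQ, hgrid⟩ := hSQ S hS
  haveI := hQ
  obtain ⟨Ψ, hΨ, hd, K₀, hK₀⟩ := hcod Q U Hh Vv (fun W H t hW hH ht => by
    obtain ⟨m, _, h1, h2⟩ := (hgrid W H hW hH).1 ⟨t, ht⟩
    rw [h1, h2])
  refine ⟨Ψ, hΨ, ?_⟩
  rintro C ⟨n₀, hC⟩
  have hg' : GR (fun m => g (m ^ r)) := GR.comp hgr (gr_npow r)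
  have hle : ∀ m : ℕ, m ≤ m ^ r := fun m => by
    rcases Nat.eq_zero_or_pos m with h | h
    · rw [h]; exact Nat.zero_le _
    · exact Nat.le_self_pow hr.ne' m
  have hSpos : ∀ m ∈ S, 0 < m := by
    obtain ⟨L, _, _, φ, rfl⟩ := hS
    exact fun m hm => hm.1
  obtain ⟨t1, t2⟩ := hTRN (fun m => g (m ^ r)) hg' (fun m => (hle m).trans hmono.le_apply)
    (fun m m' _ _ h => Nat.pow_left_injective hr.ne' (hmono.injective h)) S (specF C Ψ) hS
    (by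
      rintro n ⟨hn, P, G, _, hP⟩
      obtain ⟨K, t, hK, hnK, ht⟩ := hd n G P hn hP
      obtain ⟨m, hm, h1, _⟩ := (hgrid K K hK hK).1 ⟨t, ht⟩
      exact ⟨m, hm, by rw [hnK, h1]⟩)
    ⟨K₀ + n₀, fun m hm hle' => by
      have hm0 := hSpos m hm
      have hK : 0 < m ^ r := by positivity
      have hge : m ≤ m ^ r := hle m
      obtain ⟨G, P, hcl, hP⟩ := hK₀ (m ^ r) (by omega)
        ((hgrid (m ^ r) (m ^ r) hK hK).2 ⟨m, hm, rfl, rfl⟩)
      have hgg : m ^ r ≤ g (m ^ r) := hmono.le_apply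
      exact ⟨by omega, P, G, hC _ (by omega) G hcl, hP⟩⟩
  exact ⟨t1, t2.trans hSN⟩

end Pool.Agent.H67.WB
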