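import Pool.Agent.H54.WB.TargetsC
import Pool.Agent.H69.WB.TAM

/-!
# The tame side, general form
-/

set_option autoImplicit false

namespace Pool.Agent.H67.WB

open Pool.Agent.H54.WB Pool.Agent.H76.ADV Pool.Agent.H8.MC Pool.Agent.H69.VR Pool.Agent.H69.Sp

theorem pf_TAG (hLOW : T_LOW) (hLGF : T_LGF) : T_TAG := by
  intro Z hZ hper hbru f hf hsf
  obtain ⟨h, c, hinv⟩ := hper
  obtain ⟨a1, ha1⟩ := hf 0
  obtain ⟨a2, ha2⟩ := hLOW f hf h c 6
  obtain ⟨⟨a3, ha3⟩, h4⟩ := hLGF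
  have e1 : IsSpectrum {u | 0 < u ∧ u ∈ Z (f u)} :=
    Pool.Agent.H69.WB.key hsf (fun n k => n ∈ Z k) (fun nf kf hn hk hb => (hbru nf kf hn hk hb).1)
      h c hinv (a1 + a2 + a3) (fun u hu => ha1 u (by omega)) (fun u hu => ha2 u (by omega))
      (fun u hu => ha3 u (by omega)) h4 (Pool.Agent.H69.WB.ilog_le 6)
  have e2 : IsSpectrum {u | 0 < u ∧ u ∉ Z (f u)} :=
    Pool.Agent.H69.WB.key hsf (fun n k => n ∉ Z k) (fun nf kf hn hk hb => (hbru nf kf hn hk hb).2)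
      h c (fun k m n hm hn hg => not_congr (hinv k m n hm hn hg)) (a1 + a2 + a3)
      (fun u hu => ha1 u (by omega)) (fun u hu => ha2 u (by omega))
      (fun u hu => ha3 u (by omega)) h4 (Pool.Agent.H69.WB.ilog_le 6)
  constructor
  · have e3 : {n | n ∈ Z (f n)} = {u | 0 < u ∧ u ∈ Z (f u)} := by
      ext u
      exact ⟨fun hu => ⟨hZ _ _ hu, hu⟩, fun hu => hu.2⟩
    rw [e3]
    exact e1
  · exact e2

end Pool.Agent.H67.WB
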